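import Pool.Agent.helper78.HFN.Spec

set_option autoImplicit false

/-!
Row hfn:DIM (MP_3221a1_ag): the number of conditions imposed by points of multiplicity at most two.
-/

open Polynomial Module

namespace Pool.Agent.HFN

noncomputable section

/-- the value as a linear map -/
def DIM_ev (z : ℂ × ℂ) : AA →ₗ[ℂ] ℂ where
  toFun f := ev z f
  map_add' f g := ev_add z f g
  map_smul' c f := by rw [ev_smul, RingHom.id_apply, smul_eq_mul]

/-- the derivative with respect to `x` as a linear map -/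
def DIM_dx (z : ℂ × ℂ) : AA →ₗ[ℂ] ℂ where
  toFun f := ev z (Dx f)
  map_add' f g := by rw [Dx_add, ev_add]
  map_smul' c f := by rw [Dx_smul, ev_smul, RingHom.id_apply, smul_eq_mul]

/-- the derivative with respect to `y` as a linear map -/
def DIM_dy (z : ℂ × ℂ) : AA →ₗ[ℂ] ℂ where
  toFun f := ev z (Dy f)
  map_add' f g := by rw [Dy_add, ev_add]
  map_smul' c f := by rw [Dy_smul, ev_smul, RingHom.id_apply, smul_eq_mul]

/-- rank-nullity for finitely many linear forms on a subspace -/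
theorem DIM_gen (E : Type) [AddCommGroup E] [Module ℂ E] (W : Submodule ℂ E) [FiniteDimensional ℂ W]
    (S1 S2 : Type) [Fintype S1] [Fintype S2] (φ : S1 → E →ₗ[ℂ] ℂ) (ψ χ : S2 → E →ₗ[ℂ] ℂ)
    (K : Submodule ℂ E) (hK : ∀ f, f ∈ K ↔ f ∈ W ∧ (∀ s, φ s f = 0) ∧ (∀ s, ψ s f = 0) ∧
      ∀ s, χ s f = 0) (w : ℕ) (hw : Fintype.card S1 + 2 * Fintype.card S2 = w) :
    finrank ℂ W ≤ finrank ℂ K + w ∧
      ((∀ (a : S1 → ℂ) (b c : S2 → ℂ), ∃ f ∈ W, (∀ s, φ s f = a s) ∧ (∀ s, ψ s f = b s) ∧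
        ∀ s, χ s f = c s) → finrank ℂ K + w = finrank ℂ W) := by
  let Φ : W →ₗ[ℂ] (S1 → ℂ) × (S2 → ℂ) × (S2 → ℂ) :=
    ((LinearMap.pi φ).prod ((LinearMap.pi ψ).prod (LinearMap.pi χ))).comp W.subtype
  have hΦ : ∀ f : W, Φ f = (fun s => φ s f.1, fun s => ψ s f.1, fun s => χ s f.1) := fun f => rfl
  have hker : Submodule.map W.subtype (LinearMap.ker Φ) = K := by
    ext f
    rw [Submodule.mem_map, hK]
    constructor
    · rintro ⟨g, hg, rfl⟩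
      rw [LinearMap.mem_ker, hΦ] at hg
      have g1 := congrArg Prod.fst hg
      have g2 := congrArg (fun p => p.2.1) hg
      have g3 := congrArg (fun p => p.2.2) hg
      exact ⟨g.2, fun z => congrFun g1 z, fun z => congrFun g2 z, fun z => congrFun g3 z⟩
    · rintro ⟨hf, h2, h3, h4⟩
      refine ⟨⟨f, hf⟩, ?_, rfl⟩
      rw [LinearMap.mem_ker, hΦ]
      exact Prod.ext (funext h2) (Prod.ext (funext h3) (funext h4))
  have hkf : finrank ℂ (LinearMap.ker Φ) = finrank ℂ K := by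
    rw [← hker, Submodule.finrank_map_subtype_eq]
  have hcod : finrank ℂ ((S1 → ℂ) × (S2 → ℂ) × (S2 → ℂ)) = w := by
    rw [Module.finrank_prod, Module.finrank_prod, finrank_fintype_fun_eq_card,
      finrank_fintype_fun_eq_card, ← hw]
    ring
  have h1 := LinearMap.finrank_range_add_finrank_ker Φ
  have h2 := Submodule.finrank_le (LinearMap.range Φ)
  rw [hkf] at h1
  rw [hcod] at h2
  refine ⟨by omega, fun h => ?_⟩
  have hs : Function.Surjective Φ := by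
    rintro ⟨a, b, c⟩
    obtain ⟨f, hf, k1, k2, k3⟩ := h a b c
    refine ⟨⟨f, hf⟩, ?_⟩
    rw [hΦ]
    exact Prod.ext (funext k1) (Prod.ext (funext k2) (funext k3))
  rw [LinearMap.range_eq_top.2 hs, finrank_top, hcod] at h1
  omega

theorem DIM_wt (Z : Finset (ℂ × ℂ)) (κ : ℂ × ℂ → ℕ) (hκ : ∀ z, κ z ≤ 2) :
    Wt Z κ = (Z.filter fun z => 1 ≤ κ z).card + 2 * (Z.filter fun z => 2 ≤ κ z).card := by
  unfold Wt
  rw [Finset.card_filter, Finset.card_filter, Finset.mul_sum, ← Finset.sum_add_distrib]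
  refine Finset.sum_congr rfl fun z _ => ?_
  have h := hκ z
  have h3 : κ z = 0 ∨ κ z = 1 ∨ κ z = 2 := by omega
  rcases h3 with h3 | h3 | h3 <;> rw [h3] <;> simp [wt]

theorem DIM_mem (Z : Finset (ℂ × ℂ)) (κ : ℂ × ℂ → ℕ) (f : AA) :
    f ∈ JJ Z κ ↔ (∀ z : ↥(Z.filter fun z => 1 ≤ κ z), DIM_ev z.1 f = 0) ∧
      (∀ z : ↥(Z.filter fun z => 2 ≤ κ z), DIM_dx z.1 f = 0) ∧
      (∀ z : ↥(Z.filter fun z => 2 ≤ κ z), DIM_dy z.1 f = 0) := by
  rw [mem_JJ]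
  constructor
  · intro h
    refine ⟨fun z => ?_, fun z => ?_, fun z => ?_⟩
    · have hz := Finset.mem_filter.1 z.2
      exact (h z hz.1).1 hz.2
    · have hz := Finset.mem_filter.1 z.2
      exact ((h z hz.1).2 hz.2).2.1
    · have hz := Finset.mem_filter.1 z.2
      exact ((h z hz.1).2 hz.2).2.2
  · rintro ⟨h1, h2, h3⟩ z hz
    refine ⟨fun h => h1 ⟨z, Finset.mem_filter.2 ⟨hz, h⟩⟩, fun h => ⟨?_, ?_, ?_⟩⟩
    · exact h1 ⟨z, Finset.mem_filter.2 ⟨hz, by omega⟩⟩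
    · exact h2 ⟨z, Finset.mem_filter.2 ⟨hz, h⟩⟩
    · exact h3 ⟨z, Finset.mem_filter.2 ⟨hz, h⟩⟩

theorem DIM_surj (hINT : INT_stmt) (Z : Finset (ℂ × ℂ)) (κ : ℂ × ℂ → ℕ) (M N : ℕ)
    (hM : 2 * Z.card ≤ M) (hN : 2 * Z.card ≤ N) (a : ↥(Z.filter fun z => 1 ≤ κ z) → ℂ)
    (b c : ↥(Z.filter fun z => 2 ≤ κ z) → ℂ) : ∃ f ∈ V M N, (∀ s, DIM_ev s.1 f = a s) ∧
      (∀ s, DIM_dx s.1 f = b s) ∧ ∀ s, DIM_dy s.1 f = c s := by
  classical
  obtain ⟨f, hf, hz⟩ := hINT Z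
    (fun z => if h : z ∈ Z.filter fun z => 1 ≤ κ z then a ⟨z, h⟩ else 0)
    (fun z => if h : z ∈ Z.filter fun z => 2 ≤ κ z then b ⟨z, h⟩ else 0)
    (fun z => if h : z ∈ Z.filter fun z => 2 ≤ κ z then c ⟨z, h⟩ else 0) M N hM hN
  refine ⟨f, hf, fun z => ?_, fun z => ?_, fun z => ?_⟩
  · have h1 := (hz z.1 (Finset.mem_filter.1 z.2).1).1
    rw [dif_pos z.2] at h1
    exact h1
  · have h1 := (hz z.1 (Finset.mem_filter.1 z.2).1).2.1
    rw [dif_pos z.2] at h1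
    exact h1
  · have h1 := (hz z.1 (Finset.mem_filter.1 z.2).1).2.2
    rw [dif_pos z.2] at h1
    exact h1

theorem DIM_one (Z : Finset (ℂ × ℂ)) (κ : ℂ × ℂ → ℕ) (hκ : ∀ z, κ z ≤ 2) (M N : ℕ) :
    finrank ℂ (V M N) ≤
      finrank ℂ (V M N ⊓ (JJ Z κ).restrictScalars ℂ : Submodule ℂ AA) + Wt Z κ ∧
    ((∀ (a : ↥(Z.filter fun z => 1 ≤ κ z) → ℂ) (b c : ↥(Z.filter fun z => 2 ≤ κ z) → ℂ),
      ∃ f ∈ V M N, (∀ s, DIM_ev s.1 f = a s) ∧ (∀ s, DIM_dx s.1 f = b s) ∧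
        ∀ s, DIM_dy s.1 f = c s) →
      finrank ℂ (V M N ⊓ (JJ Z κ).restrictScalars ℂ : Submodule ℂ AA) + Wt Z κ =
        finrank ℂ (V M N)) :=
  DIM_gen AA (V M N) (↥(Z.filter fun z => 1 ≤ κ z)) (↥(Z.filter fun z => 2 ≤ κ z))
    (fun z => DIM_ev z.1) (fun z => DIM_dx z.1) (fun z => DIM_dy z.1)
    (V M N ⊓ (JJ Z κ).restrictScalars ℂ)
    (fun f => by rw [Submodule.mem_inf, Submodule.restrictScalars_mem, DIM_mem]) (Wt Z κ)
    (by rw [Fintype.card_coe, Fintype.card_coe, DIM_wt Z κ hκ])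

/-- **DIM** -/
theorem DIM (hINT : INT_stmt) : DIM_stmt := by
  intro Z κ hκ M N
  obtain ⟨h1, h2⟩ := DIM_one Z κ hκ M N
  rw [finrank_V] at h1 h2
  exact ⟨h1, fun hM hN => h2 (DIM_surj hINT Z κ M N hM hN)⟩

end

end Pool.Agent.HFN
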